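import Pool.Agent.N530.HG.Exp0
import Pool.Agent.N207.HG.Stm

/-!
# HG/EXP: properties of the exponential
-/

set_option autoImplicit false

namespace Pool.Agent.N530.HG

theorem exx : Pool.Agent.N207.HG.S_EXP := by
  intro n N
  exact ⟨EX_zero N, EX_add N, EX_HD N, EX_an N, fun l v h s => EX_eig N l v h s,
    fun l v h s => EX_gen N l v h s, fun t s h ht => EX_idem N t h ht s,
    fun h s => EX_sq N h s, fun s M Mi h => EX_conj N s M Mi h⟩

end Pool.Agent.N530.HG
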