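import Pool.Agent.N530.HG.Ode0
import Pool.Agent.N207.HG.Stm

/-!
# HG/ODE: the local solutions are invertible solutions
-/

set_option autoImplicit false

open Matrix

namespace Pool.Agent.N530.HG

open Pool.Agent.Y119.HY

theorem ode (hL : Pool.Agent.N207.HG.S_LOC) : Pool.Agent.N207.HG.S_ODE := by
  intro n N0 N1 H hN hH
  have hg := (hL n N0 N1 hN).2 H hH
  refine ⟨fun i j => ps_an (hg i j), ?_, ?_⟩
  · intro z hz
    have hN' : Pool.Agent.N207.HG.NR (-N0ᵀ) := fun k X h => NR_dual hN k X h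
    obtain ⟨⟨H', hH'⟩, hgr⟩ := hL n (-N0ᵀ) (-N1ᵀ) hN'
    have h1 := Hf_dual hN hH hH' hg (hgr H' hH') hz
    intro h0
    have h2 := congrArg Matrix.det h1
    rw [det_mul, h0, mul_zero, det_one] at h2
    exact zero_ne_one h2
  · intro L z hz hz0 hLd
    exact br_ode hH hg hz hz0 hLd

end Pool.Agent.N530.HG
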