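import Pool.Agent.N530.HG.Unb0
import Pool.Agent.N207.HG.Stm

/-!
# HG/UNB: two reflections whose product has infinite order, if `T` is unbounded
-/

set_option autoImplicit false

namespace Pool.Agent.N530.HG

theorem unb : Pool.Agent.N207.HG.S_UNB := by
  intro n J T Ti x y m hJ hdet hT hTi hx hev hm hz hTz
  exact unb' J T Ti x y m hJ hdet hT hTi hx hev hm hz hTz

end Pool.Agent.N530.HG
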