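import Pool.Agent.N530.HG.Uni0
import Pool.Agent.N207.HG.Stm

/-!
# HG/UNI: two fundamental matrices differ by a constant matrix
-/

set_option autoImplicit false

namespace Pool.Agent.N530.HG

theorem uni : Pool.Agent.N207.HG.S_UNI := by
  intro n V G Y Z hV hc hY hZ hdet
  exact uni' V G Y Z hV hc hY hZ hdet

end Pool.Agent.N530.HG
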