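import Pool.Agent.Y119.HY.Loc

/-!
# The exponential of a matrix
-/

set_option autoImplicit false

open Matrix

namespace Pool.Agent.N530.HG

open Pool.Agent.Y119.HY

variable {n : ℕ}

/-- `exp (s N)` -/
noncomputable def EX' {n : ℕ} (N : Matrix (Fin n) (Fin n) ℂ) (s : ℂ) : Matrix (Fin n) (Fin n) ℂ :=
  NormedSpace.exp (s • N)

lemma EX_zero (N : Matrix (Fin n) (Fin n) ℂ) : EX' N 0 = 1 := by
  unfold EX'
  rw [zero_smul, NormedSpace.exp_zero]

section
attribute [local instance] Matrix.linftyOpNormedRing Matrix.linftyOpNormedAlgebra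

lemma EX_add (N : Matrix (Fin n) (Fin n) ℂ) (s t : ℂ) : EX' N (s + t) = EX' N s * EX' N t := by
  unfold EX'
  rw [add_smul]
  exact Matrix.exp_add_of_commute _ _ (((Commute.refl N).smul_left s).smul_right t)

lemma EX_HD (N : Matrix (Fin n) (Fin n) ℂ) (s : ℂ) : HD (EX' N) (N * EX' N s) s := by
  intro i j
  have h : HasDerivAt (fun u : ℂ => NormedSpace.exp (u • N)) (N * NormedSpace.exp (s • N)) s :=
    hasDerivAt_exp_smul_const' N s
  exact hasDerivAt_pi.1 (hasDerivAt_pi.1 h i) j

end

lemma EX_an (N : Matrix (Fin n) (Fin n) ℂ) (i j : Fin n) :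
    AnalyticOnNhd ℂ (fun s => EX' N s i j) Set.univ := by
  intro s _
  exact Differentiable.analyticAt (fun t => (EX_HD N t i j).differentiableAt) s

lemma EX_mul_neg (N : Matrix (Fin n) (Fin n) ℂ) (s : ℂ) : EX' N s * EX' N (-s) = 1 := by
  rw [← EX_add, add_neg_cancel, EX_zero]

lemma EX_comm (N : Matrix (Fin n) (Fin n) ℂ) (s : ℂ) : N * EX' N s = EX' N s * N := by
  unfold EX'
  exact ((Commute.refl N).smul_right s).exp_right.eq

/-- uniqueness of the solution of `B' = N B` -/
lemma EX_unique (N : Matrix (Fin n) (Fin n) ℂ) (B : ℂ → Matrix (Fin n) (Fin n) ℂ)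
    (hB : ∀ s, HD B (N * B s) s) (s : ℂ) : B s = EX' N s * B 0 := by
  have h1 : ∀ t, HD (fun w => EX' N (-w) * B w) 0 t := by
    intro t
    have h2 : HD (fun w => EX' N (-w)) ((-1 : ℂ) • (N * EX' N (-t))) t :=
      (EX_HD N (-t)).comp (hasDerivAt_neg t)
    refine (h2.mul (hB t)).congr ?_
    rw [smul_mul_assoc, neg_one_smul, EX_comm, Matrix.mul_assoc, neg_add_cancel]
  have h2 : EX' N (-s) * B s = B 0 := by
    ext i j
    have h3 := is_const_of_deriv_eq_zero (f := fun w => (EX' N (-w) * B w) i j)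
      (fun t => (h1 t i j).differentiableAt) (fun t => (h1 t i j).deriv) s 0
    rw [h3, neg_zero, EX_zero, one_mul]
  rw [← h2, ← Matrix.mul_assoc, EX_mul_neg, one_mul]

/-- generalised eigenvectors -/
lemma EX_gen (N : Matrix (Fin n) (Fin n) ℂ) (l : ℂ) (v : Fin n → ℂ)
    (h : N *ᵥ (N *ᵥ v - l • v) = l • (N *ᵥ v - l • v)) (s : ℂ) :
    EX' N s *ᵥ v = Complex.exp (s * l) • (v + s • (N *ᵥ v - l • v)) := by
  set w := N *ᵥ v - l • v with hw
  have hNv : N *ᵥ v = l • v + w := by rw [hw]; abel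
  set B : ℂ → Matrix (Fin n) (Fin n) ℂ := fun s => Matrix.of fun i _ =>
    Complex.exp (s * l) * (v i + s * w i) with hB
  have hHD : ∀ t, HD B (N * B t) t := by
    intro t i j
    have e1 : (N * B t) i j = Complex.exp (t * l) * ((N *ᵥ v) i + t * (N *ᵥ w) i) := by
      rw [hB]
      simp only [Matrix.mul_apply, Matrix.of_apply, Matrix.mulVec, dotProduct]
      rw [Finset.mul_sum, ← Finset.sum_add_distrib, Finset.mul_sum]
      refine Finset.sum_congr rfl fun k _ => ?_
      ring
    rw [e1, hNv, h]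
    simp only [hB, Matrix.of_apply, Pi.add_apply, Pi.smul_apply, smul_eq_mul]
    have h1 : HasDerivAt (fun s : ℂ => Complex.exp (s * l)) (Complex.exp (t * l) * l) t := by
      have := ((hasDerivAt_id t).mul_const l).cexp
      simpa using this
    have h2 : HasDerivAt (fun s : ℂ => v i + s * w i) (w i) t := by
      have := ((hasDerivAt_id t).mul_const (w i)).const_add (v i)
      simpa using this
    refine (h1.mul h2).congr_deriv ?_
    ring
  funext i
  have h1 := congrFun (congrFun (EX_unique N B hHD s) i) i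
  rw [Matrix.mul_apply] at h1
  simp only [hB, Matrix.of_apply, zero_mul, Complex.exp_zero, one_mul, add_zero] at h1
  simp only [Pi.smul_apply, Pi.add_apply, smul_eq_mul]
  rw [h1]
  rfl

lemma EX_eig (N : Matrix (Fin n) (Fin n) ℂ) (l : ℂ) (v : Fin n → ℂ) (h : N *ᵥ v = l • v) (s : ℂ) :
    EX' N s *ᵥ v = Complex.exp (s * l) • v := by
  have h1 := EX_gen N l v (by rw [h, sub_self, mulVec_zero, smul_zero]) s
  rw [h, sub_self, smul_zero, add_zero] at h1
  exact h1

lemma EX_idem (N : Matrix (Fin n) (Fin n) ℂ) (t : ℂ) (h : N * N = t • N) (ht : t ≠ 0) (s : ℂ) :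
    EX' N s = 1 + ((Complex.exp (t * s) - 1) / t) • N := by
  have hHD : ∀ u, HD (fun s => 1 + ((Complex.exp (t * s) - 1) / t) • N)
      (N * (1 + ((Complex.exp (t * u) - 1) / t) • N)) u := by
    intro u i j
    have e1 : N * (1 + ((Complex.exp (t * u) - 1) / t) • N) = Complex.exp (t * u) • N := by
      rw [mul_add, mul_one, mul_smul_comm, h, smul_smul, div_mul_cancel₀ _ ht, sub_smul, one_smul]
      abel
    rw [e1]
    simp only [Matrix.add_apply, Matrix.smul_apply, smul_eq_mul]
    have h1 : HasDerivAt (fun s : ℂ => Complex.exp (t * s)) (Complex.exp (t * u) * t) u := by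
      have := ((hasDerivAt_id u).const_mul t).cexp
      simpa using this
    refine ((((h1.sub_const 1).div_const t).mul_const (N i j)).const_add _).congr_deriv ?_
    field_simp
  have h1 := EX_unique N _ hHD s
  rw [h1]
  simp

lemma EX_sq (N : Matrix (Fin n) (Fin n) ℂ) (h : N * N = 0) (s : ℂ) : EX' N s = 1 + s • N := by
  have hHD : ∀ u, HD (fun s => 1 + s • N) (N * (1 + u • N)) u := by
    intro u i j
    have e1 : N * (1 + u • N) = N := by rw [mul_add, mul_one, mul_smul_comm, h, smul_zero, add_zero]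
    rw [e1]
    simp only [Matrix.add_apply, Matrix.smul_apply, smul_eq_mul]
    have := ((hasDerivAt_id u).mul_const (N i j)).const_add ((1 : Matrix (Fin n) (Fin n) ℂ) i j)
    simpa using this
  have h1 := EX_unique N _ hHD s
  rw [h1]
  simp

lemma EX_conj (N : Matrix (Fin n) (Fin n) ℂ) (s : ℂ) (M Mi : Matrix (Fin n) (Fin n) ℂ)
    (h : M * Mi = 1) : EX' (M * N * Mi) s = M * EX' N s * Mi := by
  have h' : Mi * M = 1 := mul_eq_one_comm.1 h
  have hHD : ∀ u, HD (fun s => M * EX' N s * Mi) (M * N * Mi * (M * EX' N u * Mi)) u := by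
    intro u
    refine (((HD.const M u).mul (EX_HD N u)).mul (HD.const Mi u)).congr ?_
    rw [mul_zero, add_zero, zero_mul, zero_add]
    calc M * (N * EX' N u) * Mi = M * N * 1 * (EX' N u * Mi) := by
          rw [mul_one]; simp only [Matrix.mul_assoc]
      _ = M * N * (Mi * M) * (EX' N u * Mi) := by rw [h']
      _ = _ := by simp only [Matrix.mul_assoc]
  have h1 := EX_unique (M * N * Mi) _ hHD s
  rw [h1, EX_zero, mul_one, h, mul_one]

end Pool.Agent.N530.HG
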