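import Pool.Agent.N530.HG.Exp0

/-!
# Local solutions of Fuchsian systems are invertible solutions
-/

set_option autoImplicit false

open Matrix

namespace Pool.Agent.N530.HG

open Pool.Agent.Y119.HY

variable {n : ℕ} {N0 N1 : Matrix (Fin n) (Fin n) ℂ} {H H' : ℕ → Matrix (Fin n) (Fin n) ℂ}

lemma Hf_ode' (hH : Sol N0 N1 H) (hg : ∀ i j, PG fun k => H k i j) {z : ℂ} (hz : ‖z‖ < 1) (hz0 : z ≠ 0) :
    HD (Hf H) ((1 / z) • (N0 * Hf H z - Hf H z * N0) + (1 / (1 - z)) • (N1 * Hf H z)) z := by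
  intro i j
  have hd : HasDerivAt (ps fun k => H k i j) (deriv (ps fun k => H k i j) z) z :=
    ((ps_an (hg i j)) z (by rwa [Metric.mem_ball, dist_zero_right])).differentiableAt.hasDerivAt
  have h1z : (1 - z) ≠ 0 := by
    intro h0
    have : z = 1 := (sub_eq_zero.1 h0).symm
    rw [this, norm_one] at hz
    exact lt_irrefl _ hz
  refine hd.congr_deriv ?_
  -- the sequences
  have hgl : PG fun k => (N0 * H k) i j := by
    simp only [Matrix.mul_apply]
    exact PG.sum _ fun l _ => (hg l j).smul _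
  have hgr : PG fun k => (H k * N0) i j := by
    simp only [Matrix.mul_apply]
    refine PG.sum _ fun l _ => ?_
    simp only [mul_comm (H _ i l)]
    exact (hg i l).smul _
  have hg1 : PG fun k => (N1 * H k) i j := by
    simp only [Matrix.mul_apply]
    exact PG.sum _ fun l _ => (hg l j).smul _
  have el : ps (fun k => (N0 * H k) i j) z = (N0 * Hf H z) i j := by
    simp only [Matrix.mul_apply]
    rw [ps_sum _ (fun l _ => (hg l j).smul _) hz]
    exact Finset.sum_congr rfl fun l _ => ps_smul _ _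
  have er : ps (fun k => (H k * N0) i j) z = (Hf H z * N0) i j := by
    simp only [Matrix.mul_apply, mul_comm (H _ i _)]
    rw [ps_sum _ (fun l _ => (hg i l).smul _) hz]
    refine Finset.sum_congr rfl fun l _ => ?_
    rw [ps_smul, mul_comm]
    rfl
  have e1 : ps (fun k => (N1 * H k) i j) z = (N1 * Hf H z) i j := by
    simp only [Matrix.mul_apply]
    rw [ps_sum _ (fun l _ => (hg l j).smul _) hz]
    exact Finset.sum_congr rfl fun l _ => ps_smul _ _
  set D : ℕ → ℂ := fun k => (k : ℂ) * H k i j + ((H k * N0) i j + (-1) * (N0 * H k) i j) with hD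
  have hDg : PG D := (hg i j).nat.add (hgr.add (hgl.smul (-1)))
  have eD : ps D z = z * deriv (ps fun k => H k i j) z + ((Hf H z * N0) i j - (N0 * Hf H z) i j) := by
    rw [hD, ps_add (hg i j).nat (hgr.add (hgl.smul (-1))) hz, ps_add hgr (hgl.smul (-1)) hz, ps_smul, el, er,
      ← ps_deriv (hg i j) hz]
    ring
  have hD0 : D 0 = 0 := by
    rw [hD]
    simp only
    rw [hH.zero]
    simp
  have hDs : ∀ k, D (k + 1) = D k + (N1 * H k) i j := by
    intro k
    have := congrFun (congrFun (hH.step k) i) j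
    simp only [Matrix.add_apply, Matrix.smul_apply, Matrix.sub_apply, smul_eq_mul] at this
    rw [hD]
    simp only
    push_cast
    linear_combination this
  have hfin : ps D z = z * (ps D z + (N1 * Hf H z) i j) := by
    conv_lhs => rw [ps_shift hDg hz, hD0, zero_add]
    congr 1
    simp only [hDs]
    rw [ps_add hDg hg1 hz, e1]
  simp only [Matrix.add_apply, Matrix.smul_apply, Matrix.sub_apply, smul_eq_mul]
  rw [eD] at hfin
  have h2 : (1 - z) * (z * deriv (ps fun k => H k i j) z + ((Hf H z * N0) i j - (N0 * Hf H z) i j)) =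
      z * (N1 * Hf H z) i j := by linear_combination hfin
  field_simp
  linear_combination h2

/-- the solution for a branch of the logarithm -/
theorem br_ode (hH : Sol N0 N1 H) (hg : ∀ i j, PG fun k => H k i j) {L : ℂ → ℂ} {z : ℂ} (hz : ‖z‖ < 1)
    (hz0 : z ≠ 0) (hL : HasDerivAt L (1 / z) z) :
    HD (fun w => Hf H w * EX' N0 (L w)) (Gm N0 N1 z * (Hf H z * EX' N0 (L z))) z := by
  have h1 := Hf_ode' hH hg hz hz0
  have h2 : HD (fun w => EX' N0 (L w)) ((1 / z) • (N0 * EX' N0 (L z))) z :=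
    (EX_HD N0 (L z)).comp hL
  refine (h1.mul h2).congr ?_
  unfold Gm
  simp only [add_mul, smul_mul_assoc, sub_mul, mul_smul_comm, Matrix.mul_assoc, smul_sub]
  abel

/-- the Cauchy product -/
noncomputable def cv (G H : ℕ → Matrix (Fin n) (Fin n) ℂ) (k : ℕ) : Matrix (Fin n) (Fin n) ℂ :=
  ∑ p ∈ Finset.HasAntidiagonal.antidiagonal k, G p.1 * H p.2

/-- the operator `z d/dz + [·, N0]` -/
noncomputable def dl (N0 : Matrix (Fin n) (Fin n) ℂ) (G : ℕ → Matrix (Fin n) (Fin n) ℂ) (k : ℕ) :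
    Matrix (Fin n) (Fin n) ℂ := (k : ℂ) • G k + (G k * N0 - N0 * G k)

lemma dl_cv (G H : ℕ → Matrix (Fin n) (Fin n) ℂ) (k : ℕ) :
    dl N0 (cv G H) k = cv (dl N0 G) H k + cv G (dl N0 H) k := by
  unfold dl cv
  rw [Finset.smul_sum, Finset.sum_mul, Finset.mul_sum, ← Finset.sum_sub_distrib,
    ← Finset.sum_add_distrib, ← Finset.sum_add_distrib]
  refine Finset.sum_congr rfl fun p hp => ?_
  rw [Finset.HasAntidiagonal.mem_antidiagonal] at hp
  have hk : (k : ℂ) = (p.1 : ℂ) + (p.2 : ℂ) := by rw [← hp]; push_cast; rfl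
  rw [hk]
  simp only [add_smul, add_mul, sub_mul, mul_add, mul_sub, smul_mul_assoc, mul_smul_comm,
    Matrix.mul_assoc]
  abel

theorem cv_dual (hN : ∀ (k : ℕ) (X : Matrix (Fin n) (Fin n) ℂ),
      ((k : ℂ) + 1) • X + (X * N0 - N0 * X) = 0 → X = 0)
    (hH : Sol N0 N1 H) (hH' : Sol (-N0ᵀ) (-N1ᵀ) H') (k : ℕ) :
    cv (fun a => (H' a)ᵀ) H (k + 1) = 0 := by
  set G : ℕ → Matrix (Fin n) (Fin n) ℂ := fun a => (H' a)ᵀ with hG
  have hG0 : G 0 = 1 := by rw [hG]; simp only; rw [hH'.zero, transpose_one]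
  have hdG0 : dl N0 G 0 = 0 := by
    unfold dl
    rw [hG0]
    simp
  have hdH0 : dl N0 H 0 = 0 := by
    unfold dl
    rw [hH.zero]
    simp
  have hdH : ∀ k, dl N0 H (k + 1) = dl N0 H k + N1 * H k := by
    intro k
    have := hH.step k
    unfold dl
    push_cast
    exact this
  have hdG : ∀ k, dl N0 G (k + 1) = dl N0 G k - G k * N1 := by
    intro k
    have := congrArg Matrix.transpose (hH'.step k)
    simp only [transpose_add, transpose_smul, transpose_sub, transpose_mul, transpose_neg,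
      transpose_transpose] at this
    unfold dl
    rw [hG]
    simp only
    push_cast
    have e1 : (H' (k + 1))ᵀ * N0 - N0 * (H' (k + 1))ᵀ =
        -N0 * (H' (k + 1))ᵀ - (H' (k + 1))ᵀ * -N0 := by
      rw [Matrix.neg_mul, Matrix.mul_neg]; abel
    have e2 : (H' k)ᵀ * N0 - N0 * (H' k)ᵀ = -N0 * (H' k)ᵀ - (H' k)ᵀ * -N0 := by
      rw [Matrix.neg_mul, Matrix.mul_neg]; abel
    rw [e1, e2, this, Matrix.mul_neg ((H' k)ᵀ) N1]
    abel
  have hstep : ∀ k, dl N0 (cv G H) (k + 1) = dl N0 (cv G H) k := by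
    intro k
    rw [dl_cv, dl_cv]
    have e1 : cv (dl N0 G) H (k + 1) = cv (dl N0 G) H k - ∑ p ∈ Finset.HasAntidiagonal.antidiagonal k, G p.1 * N1 * H p.2 := by
      unfold cv
      rw [Finset.Nat.sum_antidiagonal_succ]
      simp only
      rw [hdG0, zero_mul, zero_add, ← Finset.sum_sub_distrib]
      refine Finset.sum_congr rfl fun p _ => ?_
      rw [hdG, sub_mul]
    have e2 : cv G (dl N0 H) (k + 1) = cv G (dl N0 H) k + ∑ p ∈ Finset.HasAntidiagonal.antidiagonal k, G p.1 * N1 * H p.2 := by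
      unfold cv
      rw [Finset.Nat.sum_antidiagonal_succ']
      simp only
      rw [hdH0, mul_zero, ← Finset.sum_add_distrib, zero_add]
      refine Finset.sum_congr rfl fun p _ => ?_
      rw [hdH, mul_add, Matrix.mul_assoc]
    rw [e1, e2]
    abel
  have hall : ∀ k, dl N0 (cv G H) k = 0 := by
    intro k
    induction k with
    | zero =>
      rw [dl_cv]
      unfold cv
      simp [hdG0, hdH0]
    | succ k ih => rw [hstep, ih]
  apply hN k
  have := hall (k + 1)
  unfold dl at this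
  push_cast at this
  exact this

theorem Hf_dual (hN : ∀ (k : ℕ) (X : Matrix (Fin n) (Fin n) ℂ),
      ((k : ℂ) + 1) • X + (X * N0 - N0 * X) = 0 → X = 0)
    (hH : Sol N0 N1 H) (hH' : Sol (-N0ᵀ) (-N1ᵀ) H') (hg : ∀ i j, PG fun k => H k i j)
    (hg' : ∀ i j, PG fun k => H' k i j) {z : ℂ} (hz : ‖z‖ < 1) :
    (Hf H' z)ᵀ * Hf H z = 1 := by
  have hsn : ∀ {c : ℕ → ℂ}, PG c → Summable fun k => ‖c k * z ^ k‖ := by
    intro c hc
    refine (hc.summable (norm_nonneg z) hz).congr fun k => ?_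
    rw [norm_mul, norm_pow]
  ext i j
  rw [Matrix.mul_apply]
  have h1 : ∀ l, (Hf H' z)ᵀ i l * Hf H z l j = ∑' k, ∑ p ∈ Finset.HasAntidiagonal.antidiagonal k,
      (H' p.1 l i * z ^ p.1) * (H p.2 l j * z ^ p.2) := by
    intro l
    exact tsum_mul_tsum_eq_tsum_sum_antidiagonal_of_summable_norm (hsn (hg' l i)) (hsn (hg l j))
  have h2 : ∀ l, Summable fun k => ∑ p ∈ Finset.HasAntidiagonal.antidiagonal k,
      (H' p.1 l i * z ^ p.1) * (H p.2 l j * z ^ p.2) := by
    intro l
    exact (summable_norm_sum_mul_antidiagonal_of_summable_norm (hsn (hg' l i)) (hsn (hg l j))).of_norm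
  simp only [h1]
  rw [← Summable.tsum_finsetSum fun l _ => h2 l]
  have h3 : ∀ k, ∑ l, ∑ p ∈ Finset.HasAntidiagonal.antidiagonal k,
      (H' p.1 l i * z ^ p.1) * (H p.2 l j * z ^ p.2) = z ^ k * cv (fun a => (H' a)ᵀ) H k i j := by
    intro k
    unfold cv
    rw [Finset.sum_comm, Matrix.sum_apply, Finset.mul_sum]
    refine Finset.sum_congr rfl fun p hp => ?_
    rw [Finset.HasAntidiagonal.mem_antidiagonal] at hp
    rw [Matrix.mul_apply, Finset.mul_sum]
    refine Finset.sum_congr rfl fun l _ => ?_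
    change H' p.1 l i * z ^ p.1 * (H p.2 l j * z ^ p.2) = z ^ k * (H' p.1 l i * H p.2 l j)
    rw [← hp, pow_add]
    ring
  simp only [h3]
  rw [tsum_eq_single 0]
  · rw [pow_zero, one_mul]
    unfold cv
    simp [hH.zero, hH'.zero]
  · intro k hk
    obtain ⟨m, rfl⟩ := Nat.exists_eq_succ_of_ne_zero hk
    rw [cv_dual hN hH hH' m, Matrix.zero_apply, mul_zero]

lemma NR_dual (hN : ∀ (k : ℕ) (X : Matrix (Fin n) (Fin n) ℂ),
      ((k : ℂ) + 1) • X + (X * N0 - N0 * X) = 0 → X = 0) (k : ℕ) (X : Matrix (Fin n) (Fin n) ℂ)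
    (h : ((k : ℂ) + 1) • X + (X * (-N0ᵀ) - (-N0ᵀ) * X) = 0) : X = 0 := by
  have h1 := congrArg Matrix.transpose h
  simp only [transpose_add, transpose_smul, transpose_sub, transpose_mul, transpose_neg,
    transpose_transpose, transpose_zero] at h1
  have h2 : Xᵀ = 0 := by
    apply hN k
    rw [← h1, Matrix.neg_mul, Matrix.mul_neg]
    abel
  rw [← transpose_transpose X, h2, transpose_zero]

end Pool.Agent.N530.HG
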