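import Pool.Agent.Y985.OR.CD

/-!
# Two reflections whose product has infinite order, if `T` is unbounded
-/

set_option autoImplicit false

open Matrix

namespace Pool.Agent.N530.HG

open Pool.Agent.Y985.OR (Mat bl refl IsO)
open Pool.Agent.Y985.OR.CDaux

variable {n : ℕ} {J : Mat n}

/-- the powers of an isometry are isometries -/
lemma pr_pow {T : Mat n} (hT : Pr J T) (k : ℕ) : Pr J (T ^ k) := by
  induction k with
  | zero =>
    intro x y
    rw [pow_zero, one_mulVec, one_mulVec]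
  | succ k ih => rw [pow_succ]; exact pr_mul ih hT

lemma pow_add_mulVec (T : Mat n) (j k : ℕ) (x : Fin n → ℂ) :
    T ^ (j + k) *ᵥ x = T ^ j *ᵥ (T ^ k *ᵥ x) := by
  rw [pow_add, mulVec_mulVec]

/-- a root of modulus `> 1` -/
lemma big_root {t : ℂ} (ht : 2 < ‖t‖) : ∃ ξ : ℂ, ξ ^ 2 - t * ξ + 1 = 0 ∧ 1 < ‖ξ‖ := by
  obtain ⟨s, hs⟩ := IsAlgClosed.exists_pow_nat_eq (t ^ 2 - 4) (two_pos)
  set a : ℂ := (t + s) / 2 with ha
  set b : ℂ := (t - s) / 2 with hb
  have hab : a * b = 1 := by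
    rw [ha, hb]
    linear_combination (-1 / 4) * hs
  have hsum : a + b = t := by rw [ha, hb]; ring
  have hra : a ^ 2 - t * a + 1 = 0 := by rw [← hsum]; linear_combination -hab
  have hrb : b ^ 2 - t * b + 1 = 0 := by rw [← hsum]; linear_combination -hab
  by_cases h1 : 1 < ‖a‖
  · exact ⟨a, hra, h1⟩
  by_cases h2 : 1 < ‖b‖
  · exact ⟨b, hrb, h2⟩
  exfalso
  have h3 : ‖t‖ ≤ ‖a‖ + ‖b‖ := by rw [← hsum]; exact norm_add_le a b
  linarith

/-- two reflections in vectors of the same length with a large product -/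
theorem order_inf (hJ : Jᵀ = J) {u v : Fin n → ℂ} (hu : bl J u u ≠ 0) (huv : bl J v v = bl J u u)
    (hb : ‖bl J u u‖ < ‖bl J u v‖) (k : ℕ) (hk : 0 < k) : (refl J u * refl J v) ^ k ≠ 1 := by
  intro hone
  set c := bl J u u with hc
  set b := bl J u v with hbd
  set a : ℂ := 2 * b / c with ha
  have hb0 : b ≠ 0 := by
    intro h
    rw [h, norm_zero] at hb
    exact absurd hb (not_lt.2 (norm_nonneg _))
  have ha0 : a ≠ 0 := by
    rw [ha]
    exact div_ne_zero (mul_ne_zero two_ne_zero hb0) hu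
  have hna : 2 < ‖a‖ := by
    rw [ha, norm_div, norm_mul, Complex.norm_ofNat, lt_div_iff₀ (norm_pos_iff.2 hu)]
    linarith
  have hnt : 2 < ‖a ^ 2 - 2‖ := by
    have h1 : ‖a ^ 2‖ - ‖(2 : ℂ)‖ ≤ ‖a ^ 2 - 2‖ := norm_sub_norm_le _ _
    rw [norm_pow, Complex.norm_ofNat] at h1
    nlinarith
  obtain ⟨ξ, hξ, hξ1⟩ := big_root hnt
  have hvu : bl J v u = b := bl_comm hJ v u
  have g1 : (refl J u * refl J v) *ᵥ u = (a ^ 2 - 1) • u - a • v := by
    rw [← mulVec_mulVec, refl_mulVec hJ v u, refl_mulVec hJ, bl_sub_right, bl_smul_right, huv, hvu,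
      ← hbd, ← hc, ← ha]
    have e : 2 * (c - a * b) / c = 2 - a ^ 2 := by
      rw [ha]
      field_simp
    rw [e]
    module
  have g2 : (refl J u * refl J v) *ᵥ v = a • u - v := by
    rw [← mulVec_mulVec, refl_mulVec hJ v v, refl_mulVec hJ, bl_sub_right, bl_smul_right, huv,
      ← hbd, ← hc]
    have e1 : 2 * c / c = 2 := by field_simp
    rw [e1]
    have e : 2 * (b - 2 * b) / c = -a := by
      rw [ha]
      ring
    rw [e]
    module
  set y : Fin n → ℂ := (ξ + 1) • u - a • v with hy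
  have gy : (refl J u * refl J v) *ᵥ y = ξ • y := by
    rw [hy, mulVec_sub, mulVec_smul, mulVec_smul, g1, g2]
    have e : (ξ + 1) * (a ^ 2 - 1) - a ^ 2 = ξ * (ξ + 1) := by linear_combination -hξ
    have : (ξ + 1) • ((a ^ 2 - 1) • u - a • v) - a • (a • u - v) =
        ((ξ + 1) * (a ^ 2 - 1) - a ^ 2) • u - (ξ * a) • v := by module
    rw [this, e]
    module
  have hpow : ∀ j : ℕ, (refl J u * refl J v) ^ j *ᵥ y = ξ ^ j • y := by
    intro j
    induction j with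
    | zero => rw [pow_zero, pow_zero, one_mulVec, one_smul]
    | succ j ih => rw [pow_succ, ← mulVec_mulVec, gy, mulVec_smul, ih, smul_smul, pow_succ, mul_comm]
  have hy0 : y ≠ 0 := by
    intro h0
    have h1 : v = ((ξ + 1) / a) • u := by
      have h2 : a • v = (ξ + 1) • u := (sub_eq_zero.1 h0).symm
      have h3 : v = a⁻¹ • (a • v) := by rw [smul_smul, inv_mul_cancel₀ ha0, one_smul]
      rw [h3, h2, smul_smul]
      congr 1
      ring
    set s := (ξ + 1) / a with hs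
    have h2 : s ^ 2 = 1 := by
      have h3 : bl J v v = s * (s * c) := by
        rw [h1, bl_smul_left, bl_smul_right]
      rw [huv] at h3
      have h4 : (s ^ 2 - 1) * c = 0 := by linear_combination -h3
      rcases mul_eq_zero.1 h4 with h5 | h5
      · linear_combination h5
      · exact absurd h5 hu
    have h3 : b = s * c := by rw [hbd, h1, bl_smul_right]
    have h4 : ‖s‖ = 1 := by
      have h5 : ‖s‖ ^ 2 = 1 := by rw [← norm_pow, h2, norm_one]
      have h6 : (‖s‖ - 1) * (‖s‖ + 1) = 0 := by linear_combination h5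
      rcases mul_eq_zero.1 h6 with h7 | h7
      · linarith
      · have := norm_nonneg s
        linarith
    rw [h3, norm_mul, h4, one_mul] at hb
    exact lt_irrefl _ hb
  have h1 := hpow k
  rw [hone, one_mulVec] at h1
  have h2 : (ξ ^ k - 1) • y = 0 := by rw [sub_smul, one_smul, ← h1, sub_self]
  rcases smul_eq_zero.1 h2 with h3 | h3
  · have h4 : ‖ξ‖ ^ k = 1 := by
      rw [← norm_pow, sub_eq_zero.1 h3, norm_one]
    exact absurd h4 (ne_of_gt (one_lt_pow₀ hξ1 hk.ne'))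
  · exact hy0 h3

/-- the orbit of `x` spans -/
theorem span_top (hJ : Jᵀ = J) (hdet : J.det ≠ 0) {T Ti : Mat n} (hT : Pr J T) (hTi : T * Ti = 1)
    {x : Fin n → ℂ}
    (hev : ∀ (e : Fin n → ℂ) (m : ℂ), e ≠ 0 → T *ᵥ e = m • e → bl J x e ≠ 0) :
    Submodule.span ℂ (Set.range fun k : ℕ => T ^ k *ᵥ x) = ⊤ := by
  by_contra hS
  set S : Submodule ℂ (Fin n → ℂ) := Submodule.span ℂ (Set.range fun k : ℕ => T ^ k *ᵥ x) with hSd
  have hTS : ∀ s ∈ S, T *ᵥ s ∈ S := by
    intro s hs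
    refine Submodule.span_induction (p := fun s _ => T *ᵥ s ∈ S) ?_ ?_ ?_ ?_ hs
    · rintro _ ⟨k, rfl⟩
      refine Submodule.subset_span ⟨k + 1, ?_⟩
      change T ^ (k + 1) *ᵥ x = T *ᵥ (T ^ k *ᵥ x)
      rw [add_comm, pow_add_mulVec, pow_one]
    · rw [mulVec_zero]; exact S.zero_mem
    · intro a b _ _ ha hb
      rw [mulVec_add]; exact S.add_mem ha hb
    · intro c a _ ha
      rw [mulVec_smul]; exact S.smul_mem c ha
  -- the orthogonal complement
  let P : Submodule ℂ (Fin n → ℂ) :=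
    { carrier := {w | ∀ s ∈ S, bl J s w = 0}
      add_mem' := by
        intro a b ha hb s hs
        rw [bl_add_right, ha s hs, hb s hs, add_zero]
      zero_mem' := by
        intro s _
        unfold bl
        rw [mulVec_zero, dotProduct_zero]
      smul_mem' := by
        intro c a ha s hs
        rw [bl_smul_right, ha s hs, mul_zero] }
  have hP : ∀ w, w ∈ P ↔ ∀ s ∈ S, bl J s w = 0 := fun w => Iff.rfl
  have hP0 : P ≠ ⊥ := by
    obtain ⟨f, hf0, hf⟩ := Submodule.exists_le_ker_of_lt_top S (lt_top_iff_ne_top.2 hS)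
    set φ : Fin n → ℂ := fun i => f (Pi.single i 1) with hφ
    have hfφ : ∀ v, f v = v ⬝ᵥ φ := by
      intro v
      have h1 : v = ∑ i, v i • (Pi.single i (1 : ℂ) : Fin n → ℂ) := by
        funext j
        simp [Finset.sum_apply, Pi.single_apply]
      conv_lhs => rw [h1]
      rw [map_sum]
      simp only [map_smul, smul_eq_mul, dotProduct, hφ]
    have hunit : IsUnit J.det := Ne.isUnit hdet
    set w := J⁻¹ *ᵥ φ with hw
    have hJw : J *ᵥ w = φ := by
      rw [hw, mulVec_mulVec, mul_nonsing_inv J hunit, one_mulVec]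
    intro hbot
    have hwP : w ∈ P := by
      rw [hP]
      intro s hs
      unfold bl
      rw [hJw, ← hfφ]
      exact LinearMap.mem_ker.1 (hf hs)
    rw [hbot, Submodule.mem_bot] at hwP
    apply hf0
    ext i
    rw [hwP, mulVec_zero] at hJw
    simp [hfφ, ← hJw]
  have hTiP : ∀ w ∈ P, Matrix.toLin' Ti w ∈ P := by
    intro w hw
    rw [hP] at hw ⊢
    intro s hs
    rw [Matrix.toLin'_apply]
    have h1 := hT s (Ti *ᵥ w)
    rw [mulVec_mulVec, hTi, one_mulVec] at h1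
    rw [← h1]
    exact hw _ (hTS s hs)
  haveI : Nontrivial P := Submodule.nontrivial_iff_ne_bot.2 hP0
  obtain ⟨μ, hμ⟩ := Module.End.exists_eigenvalue ((Matrix.toLin' Ti).restrict hTiP)
  obtain ⟨e, he⟩ := hμ.exists_hasEigenvector
  have he1 : Ti *ᵥ (e : Fin n → ℂ) = μ • (e : Fin n → ℂ) := by
    have := congrArg (Subtype.val) he.apply_eq_smul
    rw [LinearMap.restrict_apply] at this
    simpa [Matrix.toLin'_apply] using this
  have he0 : (e : Fin n → ℂ) ≠ 0 := fun h => he.2 (Subtype.ext h)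
  have he2 : (e : Fin n → ℂ) = μ • (T *ᵥ (e : Fin n → ℂ)) := by
    rw [← mulVec_smul, ← he1, mulVec_mulVec, hTi, one_mulVec]
  have hμ0 : μ ≠ 0 := by
    intro h
    rw [h, zero_smul] at he2
    exact he0 he2
  have he3 : T *ᵥ (e : Fin n → ℂ) = μ⁻¹ • (e : Fin n → ℂ) := by
    conv_rhs => rw [he2]
    rw [smul_smul, inv_mul_cancel₀ hμ0, one_smul]
  refine hev e μ⁻¹ he0 he3 ?_
  have hxS : x ∈ S := Submodule.subset_span ⟨0, by simp⟩
  exact (hP e).1 e.2 x hxS

theorem unb' (J T Ti : Mat n) (x y : Fin n → ℂ) (m : ℂ) (hJ : Jᵀ = J) (hdet : J.det ≠ 0)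
    (hT : Tᵀ * J * T = J) (hTi : T * Ti = 1) (hx : bl J x x ≠ 0)
    (hev : ∀ (e : Fin n → ℂ) (m : ℂ), e ≠ 0 → T *ᵥ e = m • e → bl J x e ≠ 0)
    (hm : ‖m‖ = 1) (hz : T *ᵥ y - m • y ≠ 0)
    (hTz : T *ᵥ (T *ᵥ y - m • y) = m • (T *ᵥ y - m • y)) :
    ∃ k : ℕ, bl J (T ^ k *ᵥ x) (T ^ k *ᵥ x) ≠ 0 ∧
      ∀ m : ℕ, 0 < m → (refl J x * refl J (T ^ k *ᵥ x)) ^ m ≠ 1 := by
  have hP : Pr J T := pr_of_isO hT
  have hm0 : m ≠ 0 := by
    intro h
    rw [h, norm_zero] at hm
    exact zero_ne_one hm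
  by_cases hbig : ∃ k : ℕ, ‖bl J x x‖ < ‖bl J x (T ^ k *ᵥ x)‖
  · obtain ⟨k, hk⟩ := hbig
    have h1 : bl J (T ^ k *ᵥ x) (T ^ k *ᵥ x) = bl J x x := pr_pow hP k x x
    refine ⟨k, by rw [h1]; exact hx, ?_⟩
    intro j hj
    exact order_inf hJ hx h1 hk j hj
  exfalso
  push Not at hbig
  set B := ‖bl J x x‖ with hB
  have hall : ∀ j k : ℕ, ‖bl J (T ^ j *ᵥ x) (T ^ k *ᵥ x)‖ ≤ B := by
    intro j k
    rcases le_total j k with hjk | hjk
    · obtain ⟨d, rfl⟩ := Nat.exists_eq_add_of_le hjk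
      rw [pow_add_mulVec, pr_pow hP j]
      exact hbig d
    · obtain ⟨d, rfl⟩ := Nat.exists_eq_add_of_le hjk
      rw [pow_add_mulVec, pr_pow hP k, bl_comm hJ]
      exact hbig d
  have hS := span_top hJ hdet hP hTi hev
  -- all pairings are bounded
  have hbd1 : ∀ (j : ℕ) (w : Fin n → ℂ), ∃ C : ℝ, ∀ k : ℕ,
      ‖bl J (T ^ j *ᵥ x) (T ^ k *ᵥ w)‖ ≤ C := by
    intro j w
    have hw : w ∈ Submodule.span ℂ (Set.range fun k : ℕ => T ^ k *ᵥ x) := by rw [hS]; trivial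
    refine Submodule.span_induction (p := fun w _ => ∃ C : ℝ, ∀ k : ℕ,
      ‖bl J (T ^ j *ᵥ x) (T ^ k *ᵥ w)‖ ≤ C) ?_ ?_ ?_ ?_ hw
    · rintro _ ⟨l, rfl⟩
      refine ⟨B, fun k => ?_⟩
      change ‖bl J (T ^ j *ᵥ x) (T ^ k *ᵥ (T ^ l *ᵥ x))‖ ≤ B
      rw [← pow_add_mulVec]
      exact hall _ _
    · refine ⟨0, fun k => ?_⟩
      unfold bl
      rw [mulVec_zero, mulVec_zero, dotProduct_zero, norm_zero]
    · rintro a b _ _ ⟨C, hC⟩ ⟨D, hD⟩
      refine ⟨C + D, fun k => ?_⟩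
      rw [mulVec_add, bl_add_right]
      exact (norm_add_le _ _).trans (add_le_add (hC k) (hD k))
    · rintro c a _ ⟨C, hC⟩
      refine ⟨‖c‖ * C, fun k => ?_⟩
      rw [mulVec_smul, bl_smul_right, norm_mul]
      exact mul_le_mul_of_nonneg_left (hC k) (norm_nonneg _)
  have hbd2 : ∀ (v w : Fin n → ℂ), ∃ C : ℝ, ∀ k : ℕ, ‖bl J v (T ^ k *ᵥ w)‖ ≤ C := by
    intro v w
    have hv : v ∈ Submodule.span ℂ (Set.range fun k : ℕ => T ^ k *ᵥ x) := by rw [hS]; trivial
    refine Submodule.span_induction (p := fun v _ => ∃ C : ℝ, ∀ k : ℕ,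
      ‖bl J v (T ^ k *ᵥ w)‖ ≤ C) ?_ ?_ ?_ ?_ hv
    · rintro _ ⟨l, rfl⟩
      exact hbd1 l w
    · refine ⟨0, fun k => ?_⟩
      unfold bl
      rw [zero_dotProduct, norm_zero]
    · rintro a b _ _ ⟨C, hC⟩ ⟨D, hD⟩
      refine ⟨C + D, fun k => ?_⟩
      rw [bl_add_left]
      exact (norm_add_le _ _).trans (add_le_add (hC k) (hD k))
    · rintro c a _ ⟨C, hC⟩
      refine ⟨‖c‖ * C, fun k => ?_⟩
      rw [bl_smul_left, norm_mul]
      exact mul_le_mul_of_nonneg_left (hC k) (norm_nonneg _)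
  set z := T *ᵥ y - m • y with hzd
  have hTy : T *ᵥ y = m • y + z := by rw [hzd]; abel
  have hpow : ∀ k : ℕ, T ^ k *ᵥ y = m ^ k • (y + ((k : ℂ) / m) • z) := by
    intro k
    induction k with
    | zero => simp
    | succ k ih =>
      rw [add_comm k 1, pow_add_mulVec, pow_one, ih, mulVec_smul, mulVec_add, mulVec_smul, hTz, hTy,
        add_comm 1 k, pow_succ]
      push_cast
      have e1 : ((k : ℂ) / m) • m • z = (k : ℂ) • z := by
        rw [smul_smul, div_mul_cancel₀ _ hm0]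
      rw [e1, mul_smul, smul_add m y, smul_smul m (((k : ℂ) + 1) / m) z, mul_div_cancel₀ _ hm0,
        add_smul, one_smul]
      congr 1
      abel
  -- a vector not orthogonal to `z`
  obtain ⟨v, hv⟩ : ∃ v, bl J v z ≠ 0 := by
    by_contra hcon
    push Not at hcon
    have h1 : J *ᵥ z = 0 := by
      funext i
      have := hcon (Pi.single i 1)
      unfold bl at this
      rwa [single_one_dotProduct] at this
    have h2 : J⁻¹ *ᵥ (J *ᵥ z) = z := by
      rw [mulVec_mulVec, nonsing_inv_mul J (Ne.isUnit hdet), one_mulVec]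
    rw [h1, mulVec_zero] at h2
    exact hz h2.symm
  obtain ⟨C, hC⟩ := hbd2 v y
  have hpos : 0 < ‖bl J v z‖ := norm_pos_iff.2 hv
  obtain ⟨k, hk⟩ := exists_nat_gt ((C + ‖bl J v y‖) / ‖bl J v z‖)
  have h1 := hC k
  rw [hpow, bl_smul_right, bl_add_right, bl_smul_right, norm_mul, norm_pow, hm, one_pow, one_mul] at h1
  have h2 : (k : ℝ) * ‖bl J v z‖ ≤ ‖bl J v y + (k : ℂ) / m * bl J v z‖ + ‖bl J v y‖ := by
    have h3 : (k : ℂ) / m * bl J v z = (bl J v y + (k : ℂ) / m * bl J v z) - bl J v y := by ring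
    have h4 : ‖(k : ℂ) / m * bl J v z‖ = (k : ℝ) * ‖bl J v z‖ := by
      rw [norm_mul, norm_div, hm, div_one, Complex.norm_natCast]
    rw [← h4]
    conv_lhs => rw [h3]
    exact norm_sub_le _ _
  rw [div_lt_iff₀ hpos] at hk
  linarith

end Pool.Agent.N530.HG
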