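import Pool.Agent.Y119.HY.Loc

/-!
# Two fundamental matrices differ by a constant matrix
-/

set_option autoImplicit false

open Matrix

namespace Pool.Agent.N530.HG

open Pool.Agent.Y119.HY

variable {n : ℕ}

lemma det_diff {A : ℂ → Matrix (Fin n) (Fin n) ℂ} {z : ℂ}
    (h : ∀ i j, DifferentiableAt ℂ (fun w => A w i j) z) :
    DifferentiableAt ℂ (fun w => (A w).det) z := by
  simp only [Matrix.det_apply']
  refine DifferentiableAt.fun_sum fun σ _ => ?_
  exact DifferentiableAt.const_mul (DifferentiableAt.fun_finsetProd fun i _ => h _ _) _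

lemma adj_diff {A : ℂ → Matrix (Fin n) (Fin n) ℂ} {z : ℂ}
    (h : ∀ i j, DifferentiableAt ℂ (fun w => A w i j) z) (i j : Fin n) :
    DifferentiableAt ℂ (fun w => (A w).adjugate i j) z := by
  simp only [Matrix.adjugate_apply]
  refine det_diff fun a b => ?_
  by_cases hab : a = j
  · subst hab
    simp only [Matrix.updateRow_self]
    exact differentiableAt_const _
  · simp only [Matrix.updateRow_ne hab]
    exact h a b

theorem uni' (V : Set ℂ) (G Y Z : ℂ → Matrix (Fin n) (Fin n) ℂ) (hV : IsOpen V)
    (hc : IsPreconnected V) (hY : ∀ z ∈ V, HD Y (G z * Y z) z) (hZ : ∀ z ∈ V, HD Z (G z * Z z) z)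
    (hdet : ∀ z ∈ V, (Y z).det ≠ 0) :
    ∃ C : Matrix (Fin n) (Fin n) ℂ, ∀ z ∈ V, Z z = Y z * C := by
  rcases V.eq_empty_or_nonempty with hemp | ⟨z0, hz0⟩
  · refine ⟨1, fun z hz => ?_⟩
    rw [hemp] at hz
    exact absurd hz (Set.notMem_empty z)
  -- the function which is constant
  set P : ℂ → Matrix (Fin n) (Fin n) ℂ := fun w => ((Y w).det)⁻¹ • ((Y w).adjugate * Z w) with hP
  have hPd : ∀ z ∈ V, HD P 0 z := by
    intro z hz
    have hd : DifferentiableAt ℂ (fun w => (Y w).det) z := det_diff fun i j => (hY z hz i j).differentiableAt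
    set d' := deriv (fun w => (Y w).det) z with hd'
    have hdd : HasDerivAt (fun w => (Y w).det) d' z := hd.hasDerivAt
    set D' : Matrix (Fin n) (Fin n) ℂ := Matrix.of fun i j => deriv (fun w => (Y w).adjugate i j) z
      with hD'
    have hDD : HD (fun w => (Y w).adjugate) D' z := fun i j =>
      (adj_diff (fun a b => (hY z hz a b).differentiableAt) i j).hasDerivAt
    have h1 : D' * Y z + (Y z).adjugate * (G z * Y z) = d' • (1 : Matrix (Fin n) (Fin n) ℂ) := by
      have h2 := hDD.mul (hY z hz)
      ext i j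
      have h3 := h2 i j
      have h4 : (fun w => ((Y w).adjugate * Y w) i j) =
          fun w => (Y w).det * (1 : Matrix (Fin n) (Fin n) ℂ) i j := by
        funext w
        rw [Matrix.adjugate_mul, Matrix.smul_apply, smul_eq_mul]
      rw [h4] at h3
      have h5 := h3.unique (hdd.mul_const _)
      rw [h5, Matrix.smul_apply, smul_eq_mul]
    have hdz := hdet z hz
    -- `D' = (d' - D G Y) Y⁻¹`
    have h2 : D' * Z z + (Y z).adjugate * (G z * Z z) =
        (d' * ((Y z).det)⁻¹) • ((Y z).adjugate * Z z) := by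
      have h3 : Z z = ((Y z).det)⁻¹ • (Y z * ((Y z).adjugate * Z z)) := by
        rw [← Matrix.mul_assoc, Matrix.mul_adjugate, smul_mul_assoc, one_mul, smul_smul,
          inv_mul_cancel₀ hdz, one_smul]
      set U := (Y z).adjugate * Z z with hU
      have h6 : D' * Z z + (Y z).adjugate * (G z * Z z) =
          ((Y z).det)⁻¹ • ((D' * Y z + (Y z).adjugate * (G z * Y z)) * U) := by
        rw [h3]
        simp only [mul_smul_comm, add_mul, smul_add, Matrix.mul_assoc]
      rw [h6, h1, smul_mul_assoc, one_mul, smul_smul, mul_comm]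
    intro i j
    have h3 := hDD.mul (hZ z hz) i j
    have h4 := (hdd.inv hdz).mul h3
    have h5 : (fun w => P w i j) = fun w => ((Y w).det)⁻¹ * ((Y w).adjugate * Z w) i j := by
      funext w
      rw [hP]
      simp only [Matrix.smul_apply, smul_eq_mul]
    rw [h5]
    refine h4.congr_deriv ?_
    rw [h2]
    simp only [Matrix.smul_apply, smul_eq_mul, Matrix.zero_apply, Pi.inv_apply]
    field_simp
    ring
  refine ⟨P z0, fun z hz => ?_⟩
  have h1 : P z = P z0 := by
    ext i j
    exact hV.is_const_of_deriv_eq_zero hc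
      (fun w hw => (hPd w hw i j).differentiableAt.differentiableWithinAt)
      (fun w hw => (hPd w hw i j).deriv) hz hz0
  rw [← h1, hP]
  simp only
  rw [mul_smul_comm, ← Matrix.mul_assoc, Matrix.mul_adjugate, smul_mul_assoc, one_mul, smul_smul,
    inv_mul_cancel₀ (hdet z hz), one_smul]

end Pool.Agent.N530.HG
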